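import Pool.Agent.Lib.Branch74.Comp

/-!
# A finitely generated branch group with solvable word problem and unsolvable conjugacy problem
-/

namespace Pool.Agent.Results.MP_9b3f3c_al.BranchConjugacy

open Equiv

/-! ### Definitions used in the statement -/

/-- The vertices of the spherically homogeneous rooted tree in which every vertex of level `n` has
exactly `k n` children: the finite words `l` over `ℕ` whose `j`-th letter is smaller than `k j`. The
root is the empty word, the children of a word are its one letter extensions. -/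
def Vertex (k : ℕ → ℕ) : Type := {l : List ℕ // ∀ (j : ℕ) (hj : j < l.length), l[j] < k j}

/-- The level of a vertex is the length of the word. -/
def level {k : ℕ → ℕ} (v : Vertex k) : ℕ := v.1.length

/-- `InSubtree v u` says that `u` lies in the subtree hanging below the vertex `v` (the word `v` is an
initial segment of the word `u`). -/
def InSubtree {k : ℕ → ℕ} (v u : Vertex k) : Prop := v.1 <+: u.1

/-- Automorphisms of the rooted tree: permutations of the set of vertices which preserve the level and
the relation of being an ancestor. -/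
def IsTreeAut {k : ℕ → ℕ} (g : Perm (Vertex k)) : Prop :=
  (∀ v, level (g v) = level v) ∧ ∀ v u, InSubtree (g v) (g u) ↔ InSubtree v u

/-- The rigid stabilizer of the vertex `v` in `G`: the elements of `G` fixing every vertex outside the
subtree below `v`. -/
def rist {k : ℕ → ℕ} (G : Subgroup (Perm (Vertex k))) (v : Vertex k) : Set (Perm (Vertex k)) :=
  {g | g ∈ G ∧ ∀ u, ¬ InSubtree v u → g u = u}

/-- The rigid level stabilizer: the subgroup generated by the rigid stabilizers of all vertices of
level `n`. -/
def ristLevel {k : ℕ → ℕ} (G : Subgroup (Perm (Vertex k))) (n : ℕ) : Subgroup (Perm (Vertex k)) :=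
  Subgroup.closure {g | ∃ v : Vertex k, level v = n ∧ g ∈ rist G v}

/-- Branch subgroups of the automorphism group of the tree. -/
structure IsBranch {k : ℕ → ℕ} (G : Subgroup (Perm (Vertex k))) : Prop where
  aut : ∀ g ∈ G, IsTreeAut g
  transitive : ∀ u v : Vertex k, level u = level v → ∃ g ∈ G, g u = v
  finite_index : ∀ n, ((ristLevel G n).subgroupOf G).FiniteIndex

/-- A group is a branch group if it has a faithful action on some spherically homogeneous rooted tree
(all degrees at least two) whose image is a branch subgroup. -/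
def IsBranchGroup (G : Type) [Group G] : Prop :=
  ∃ k : ℕ → ℕ, (∀ n, 2 ≤ k n) ∧ ∃ ρ : G →* Perm (Vertex k), Function.Injective ρ ∧ IsBranch ρ.range

/-- The element represented by a word over `s 0, …, s (r - 1)` and their inverses; the letter
`(i, true)` stands for `s i` and the letter `(i, false)` for its inverse. -/
def evalWord {G : Type} [Group G] {r : ℕ} (s : Fin r → G) (w : List (Fin r × Bool)) : G :=
  (w.map (fun c => if c.2 = true then s c.1 else (s c.1)⁻¹)).prod

/-- The family `s` generates the group. -/
def Generates {G : Type} [Group G] {r : ℕ} (s : Fin r → G) : Prop :=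
  Subgroup.closure (Set.range s) = ⊤

/-- The word problem with respect to the family `s` is solvable. -/
def WordProblemSolvable {G : Type} [Group G] {r : ℕ} (s : Fin r → G) : Prop :=
  ComputablePred (fun w : List (Fin r × Bool) => evalWord s w = 1)

/-- The conjugacy problem with respect to the family `s` is solvable. -/
def ConjugacyProblemSolvable {G : Type} [Group G] {r : ℕ} (s : Fin r → G) : Prop :=
  ComputablePred (fun p : List (Fin r × Bool) × List (Fin r × Bool) =>
    IsConj (evalWord s p.1) (evalWord s p.2))

/-! ### Words -/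

section words

variable {G : Type} [Group G]

theorem evalWord_nil {r : ℕ} (s : Fin r → G) : evalWord s [] = 1 := rfl

theorem evalWord_cons {r : ℕ} (s : Fin r → G) (c : Fin r × Bool) (w : List (Fin r × Bool)) :
    evalWord s (c :: w) = (if c.2 = true then s c.1 else (s c.1)⁻¹) * evalWord s w := by
  simp [evalWord]

theorem evalWord_append {r : ℕ} (s : Fin r → G) (w w' : List (Fin r × Bool)) :
    evalWord s (w ++ w') = evalWord s w * evalWord s w' := by
  simp [evalWord]

/-- words represent all elements of the generated subgroup -/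
theorem exists_word {r : ℕ} (s : Fin r → G) (hs : Generates s) (g : G) : ∃ w, evalWord s w = g := by
  have hg : g ∈ Subgroup.closure (Set.range s) := by rw [hs]; trivial
  -- inverse words
  have hinv : ∀ w : List (Fin r × Bool), ∃ w', evalWord s w' = (evalWord s w)⁻¹ := by
    intro w
    induction w with
    | nil => exact ⟨[], by simp [evalWord_nil]⟩
    | cons c w ih =>
      obtain ⟨w', hw'⟩ := ih
      refine ⟨w' ++ [(c.1, !c.2)], ?_⟩
      rw [evalWord_append, hw', evalWord_cons, evalWord_cons, evalWord_nil, mul_inv_rev, mul_one]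
      rcases c with ⟨i, b⟩
      cases b <;> simp
  induction hg using Subgroup.closure_induction with
  | mem x hx =>
    obtain ⟨i, rfl⟩ := hx
    exact ⟨[(i, true)], by simp [evalWord]⟩
  | one => exact ⟨[], rfl⟩
  | mul x y _ _ ihx ihy =>
    obtain ⟨w, rfl⟩ := ihx
    obtain ⟨w', rfl⟩ := ihy
    exact ⟨w ++ w', evalWord_append s w w'⟩
  | inv x _ ihx =>
    obtain ⟨w, rfl⟩ := ihx
    exact hinv w

/-- translation of words between families -/
theorem exists_translation {r r' : ℕ} (s : Fin r → G) (s' : Fin r' → G) (hs' : Generates s') :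
    ∃ f : List (Fin r × Bool) → List (Fin r' × Bool), Primrec f ∧
      ∀ w, evalWord s' (f w) = evalWord s w := by
  choose W hW using fun c : Fin r × Bool =>
    exists_word s' hs' (if c.2 = true then s c.1 else (s c.1)⁻¹)
  refine ⟨fun w => w.flatMap W, ?_, ?_⟩
  · have h1 : Primrec W := Primrec.dom_finite W
    exact Primrec.list_flatMap Primrec.id (h1.comp Primrec.snd)
  · intro w
    induction w with
    | nil => rfl
    | cons c w ih =>
      change evalWord s' (List.flatMap W w) = evalWord s w at ih
      change evalWord s' (List.flatMap W (c :: w)) = evalWord s (c :: w)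
      rw [List.flatMap_cons, evalWord_append, ih, hW, evalWord_cons]

theorem wordProblem_transfer {r r' : ℕ} (s : Fin r → G) (s' : Fin r' → G) (hs' : Generates s')
    (h : WordProblemSolvable s') : WordProblemSolvable s := by
  obtain ⟨f, hf, hfs⟩ := exists_translation s s' hs'
  refine ComputablePred.computable_of_manyOneReducible ⟨f, hf.to_comp, ?_⟩ h
  intro w
  change evalWord s w = 1 ↔ evalWord s' (f w) = 1
  rw [hfs]

theorem conjugacyProblem_transfer {r r' : ℕ} (s : Fin r → G) (s' : Fin r' → G) (hs' : Generates s')
    (h : ConjugacyProblemSolvable s') : ConjugacyProblemSolvable s := by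
  obtain ⟨f, hf, hfs⟩ := exists_translation s s' hs'
  refine ComputablePred.computable_of_manyOneReducible ⟨fun p => (f p.1, f p.2), ?_, ?_⟩ h
  · exact ((hf.comp Primrec.fst).pair (hf.comp Primrec.snd)).to_comp
  · intro w
    change IsConj (evalWord s w.1) (evalWord s w.2) ↔ IsConj (evalWord s' (f w.1)) (evalWord s' (f w.2))
    rw [hfs, hfs]

end words

/-! ### The group is a branch group -/

open Pool.Agent.Lib.Branch74

section branch

variable {Γ : Type} [Group Γ] (D : Data Γ)

theorem valid_of_vertex {k : ℕ → ℕ} (v : Vertex k) : Valid k 0 v.1 := by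
  rw [valid_iff]
  intro j hj
  rw [zero_add]
  exact v.2 j hj

/-- a valid word as a vertex -/
def toVertex {k : ℕ → ℕ} (l : List ℕ) (hl : Valid k 0 l) : Vertex k :=
  ⟨l, by
    rw [valid_iff] at hl
    intro j hj
    have := hl j hj
    rwa [zero_add] at this⟩

/-- the action on the vertices -/
def act : D.G 0 →* Perm (Vertex D.k) where
  toFun g :=
    { toFun := fun v => toVertex (g.1 v.1) (D.valid_apply v.1 g.2 (valid_of_vertex v))
      invFun := fun v => toVertex ((g.1)⁻¹ v.1) (D.valid_apply v.1 (inv_mem g.2) (valid_of_vertex v))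
      left_inv := by
        intro v
        apply Subtype.ext
        change (g.1)⁻¹ (g.1 v.1) = v.1
        rw [← Perm.mul_apply, inv_mul_cancel]; rfl
      right_inv := by
        intro v
        apply Subtype.ext
        change g.1 ((g.1)⁻¹ v.1) = v.1
        rw [← Perm.mul_apply, mul_inv_cancel]; rfl }
  map_one' := by ext1 v; rfl
  map_mul' := by intro g g'; ext1 v; rfl

theorem act_apply (g : D.G 0) (v : Vertex D.k) : (act D g v).1 = g.1 v.1 := rfl

theorem act_injective : Function.Injective (act D) := by
  rw [injective_iff_map_eq_one]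
  intro g hg
  apply Subtype.ext
  apply D.eq_one_of_fix_valid g.2
  intro u hu
  have := act_apply D g (toVertex u hu)
  rw [hg] at this
  exact this.symm

theorem finite_level {k : ℕ → ℕ} (n : ℕ) : Finite {v : Vertex k // level v = n} := by
  -- letters of words of length `n` are bounded
  obtain ⟨B, hB⟩ : ∃ B, ∀ j < n, k j ≤ B := by
    refine ⟨(Finset.range n).sup k, ?_⟩
    intro j hj
    exact Finset.le_sup (f := k) (Finset.mem_range.mpr hj)
  have hfin : Finite {l : List ℕ | l ∈ tl B n} := (List.finite_toSet (tl B n)).to_subtype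
  refine Finite.of_injective (β := {l : List ℕ | l ∈ tl B n}) (fun v => ⟨v.1.1, ?_⟩) ?_
  · refine mem_tl n _ (le_of_eq v.2) ?_
    intro x hx
    obtain ⟨j, hj, rfl⟩ := List.getElem_of_mem hx
    have h1 := v.1.2 j hj
    have h2 := hB j (by have h3 := v.2; unfold level at h3; omega)
    omega
  · intro v v' h
    apply Subtype.ext
    apply Subtype.ext
    exact congrArg (fun z : {l : List ℕ | l ∈ tl B n} => z.1) h

theorem act_isBranch : IsBranch (act D).range := by
  have haut : ∀ g ∈ (act D).range, IsTreeAut g := by
    rintro _ ⟨g, rfl⟩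
    constructor
    · intro v
      exact D.length_apply v.1 g.2
    · intro v u
      exact D.isPrefix_apply_iff g.2
  refine ⟨haut, ?_, ?_⟩
  · intro u v huv
    obtain ⟨g, hg, hguv⟩ := D.transitive u.1 (valid_of_vertex u) (valid_of_vertex v) huv
    exact ⟨act D ⟨g, hg⟩, ⟨_, rfl⟩, Subtype.ext hguv⟩
  · intro n
    -- the pointwise stabilizer of the level has finite index
    have hfinite := finite_level (k := D.k) n
    let π : (act D).range →* Perm {v : Vertex D.k // level v = n} :=
      { toFun := fun g =>
          { toFun := fun v => ⟨g.1 v.1, by rw [(haut g.1 g.2).1, v.2]⟩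
            invFun := fun v => ⟨(g.1)⁻¹ v.1, by rw [(haut _ (inv_mem g.2)).1, v.2]⟩
            left_inv := by
              intro v
              apply Subtype.ext
              change (g.1)⁻¹ (g.1 v.1) = v.1
              rw [← Perm.mul_apply, inv_mul_cancel]; rfl
            right_inv := by
              intro v
              apply Subtype.ext
              change g.1 ((g.1)⁻¹ v.1) = v.1
              rw [← Perm.mul_apply, mul_inv_cancel]; rfl }
        map_one' := by ext1 v; rfl
        map_mul' := by intro g g'; ext1 v; rfl }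
    have hker : π.ker ≤ (ristLevel (act D).range n).subgroupOf (act D).range := by
      rintro ⟨_, g, rfl⟩ hg
      rw [Subgroup.mem_subgroupOf]
      change act D g ∈ ristLevel (act D).range n
      have hfix : ∀ u, Valid D.k 0 u → u.length = n → g.1 u = u := by
        intro u hu hun
        have h1 := congrArg (fun e : Perm {v : Vertex D.k // level v = n} =>
          (e ⟨toVertex u hu, hun⟩).1.1) (MonoidHom.mem_ker.mp hg)
        exact h1
      have hR := D.mem_R_of_fix n g.2 hfix
      -- transport to the vertices
      have hle : D.R 0 n ≤ ((ristLevel (act D).range n).comap (act D)).map (D.G 0).subtype := by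
        rw [Data.R, Subgroup.closure_le]
        rintro e ⟨he, u, hu, hun, hfu⟩
        refine ⟨⟨e, he⟩, ?_, rfl⟩
        refine Subgroup.subset_closure ⟨toVertex u hu, hun, ⟨_, rfl⟩, ?_⟩
        intro v hv
        exact Subtype.ext (hfu v.1 hv)
      obtain ⟨g', hg', hgg'⟩ := hle hR
      have : g' = g := Subtype.ext hgg'
      rw [← this]
      exact hg'
    have : π.ker.FiniteIndex := inferInstance
    exact Subgroup.finiteIndex_of_le hker

theorem isBranchGroup : IsBranchGroup (D.G 0) :=
  ⟨D.k, fun n => by have := D.hk n; omega, act D, act_injective D, act_isBranch D⟩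

end branch

/-! ### The standard generators -/

section generators

variable (h : ℕ → ℕ → Bool)

/-- standard generators: five spinal and five rooted ones -/
noncomputable def gen : Fin (5 + 5) → (DD h).G 0 :=
  Fin.addCases (fun j => ⟨(DD h).sp 0 (FreeGroup.of j), (DD h).sp_mem 0 _⟩)
    (fun j => ⟨root (ψc 0 (FreeGroup.of j)), (DD h).root_mem ((DD h).hψ' 0 _)⟩)

theorem gen_left (j : Fin 5) : (gen h (Fin.castAdd 5 j)).1 = (DD h).sp 0 (FreeGroup.of j) := by
  rw [gen, Fin.addCases_left]

theorem gen_right (j : Fin 5) : (gen h (Fin.natAdd 5 j)).1 = root (ψc 0 (FreeGroup.of j)) := by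
  rw [gen, Fin.addCases_right]

theorem G_le {Γ : Type} [Group Γ] (D : Data Γ) (n : ℕ) (K : Subgroup (Perm (List ℕ)))
    (h1 : ∀ σ ∈ A (D.k n), root σ ∈ K) (h2 : ∀ γ, D.sp n γ ∈ K) : D.G n ≤ K := by
  rw [Data.G, Subgroup.closure_le]
  rintro _ (⟨σ, hσ, rfl⟩ | ⟨γ, rfl⟩)
  · exact h1 σ hσ
  · exact h2 γ

theorem gen_generates : Generates (gen h) := by
  unfold Generates
  rw [eq_top_iff]
  have hsp : ∀ γ : FreeGroup (Fin 5), (⟨(DD h).sp 0 γ, (DD h).sp_mem 0 γ⟩ : (DD h).G 0) ∈
      Subgroup.closure (Set.range (gen h)) := by
    intro γ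
    let f : FreeGroup (Fin 5) →* (DD h).G 0 := ((DD h).sp 0).codRestrict _ ((DD h).sp_mem 0)
    have hf : f.range ≤ Subgroup.closure (Set.range (gen h)) := by
      have hfl : f = FreeGroup.lift (fun j => f (FreeGroup.of j)) := by
        ext1 j
        rw [FreeGroup.lift_apply_of]
      rw [hfl, FreeGroup.range_lift_eq_closure, Subgroup.closure_le]
      rintro _ ⟨j, rfl⟩
      refine Subgroup.subset_closure ⟨Fin.castAdd 5 j, ?_⟩
      apply Subtype.ext
      rw [gen_left]
      rfl
    exact hf ⟨γ, rfl⟩
  have hroot : ∀ γ : FreeGroup (Fin 5),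
      (⟨root (ψc 0 γ), (DD h).root_mem ((DD h).hψ' 0 γ)⟩ : (DD h).G 0) ∈
      Subgroup.closure (Set.range (gen h)) := by
    intro γ
    let f : FreeGroup (Fin 5) →* (DD h).G 0 :=
      (root.comp (ψc 0)).codRestrict _ (fun γ => (DD h).root_mem ((DD h).hψ' 0 γ))
    have hf : f.range ≤ Subgroup.closure (Set.range (gen h)) := by
      have hfl : f = FreeGroup.lift (fun j => f (FreeGroup.of j)) := by
        ext1 j
        rw [FreeGroup.lift_apply_of]
      rw [hfl, FreeGroup.range_lift_eq_closure, Subgroup.closure_le]
      rintro _ ⟨j, rfl⟩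
      refine Subgroup.subset_closure ⟨Fin.natAdd 5 j, ?_⟩
      apply Subtype.ext
      rw [gen_right]
      rfl
    exact hf ⟨γ, rfl⟩
  rintro ⟨g, hg⟩ -
  have hle : (DD h).G 0 ≤ (Subgroup.closure (Set.range (gen h))).map ((DD h).G 0).subtype := by
    refine G_le (DD h) 0 _ ?_ ?_
    · intro σ hσ
      change σ ∈ A (kk 0) at hσ
      rw [← ψc_range] at hσ
      obtain ⟨γ, rfl⟩ := hσ
      exact ⟨_, hroot γ, rfl⟩
    · intro γ
      exact ⟨_, hsp γ, rfl⟩
  obtain ⟨g', hg', hgg'⟩ := hle hg
  have : g' = ⟨g, hg⟩ := Subtype.ext hgg'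
  rw [← this]
  exact hg'

/-- one letter acting on words -/
noncomputable def letterAct (c : Fin (5 + 5) × Bool) (l : List ℕ) : List ℕ :=
  (if c.2 = true then gen h c.1 else (gen h c.1)⁻¹ : (DD h).G 0).1 l

theorem evalWord_apply (w : List (Fin (5 + 5) × Bool)) (l : List ℕ) :
    (evalWord (gen h) w).1 l = w.foldr (letterAct h) l := by
  induction w with
  | nil => rfl
  | cons c w ih =>
    rw [evalWord_cons, List.foldr_cons, ← ih]
    rfl

theorem evalWord_S (w : List (Fin (5 + 5) × Bool)) :
    (DD h).S 0 w.length (evalWord (gen h) w).1 := by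
  induction w with
  | nil => exact (DD h).S_one 0 0
  | cons c w ih =>
    rw [evalWord_cons, List.length_cons, Subgroup.coe_mul]
    obtain ⟨i, b⟩ := c
    simp only
    induction i using Fin.addCases with
    | left j =>
      have h1 : ((if b = true then gen h (Fin.castAdd 5 j) else (gen h (Fin.castAdd 5 j))⁻¹ :
          (DD h).G 0) : Perm (List ℕ)) = (DD h).sp 0 (FreeGroup.mk [(j, b)]) := by
        cases b
        · rw [if_neg (by simp), Subgroup.coe_inv, gen_left, mk_false, map_inv]
        · rw [if_pos rfl, gen_left, mk_true]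
      rw [h1]
      exact (DD h).S_sp_mul _ ih
    | right j =>
      have h1 : ((if b = true then gen h (Fin.natAdd 5 j) else (gen h (Fin.natAdd 5 j))⁻¹ :
          (DD h).G 0) : Perm (List ℕ)) = root (ψc 0 (FreeGroup.mk [(j, b)])) := by
        cases b
        · rw [if_neg (by simp), Subgroup.coe_inv, gen_right, mk_false, map_inv, map_inv]
        · rw [if_pos rfl, gen_right, mk_true]
      rw [h1]
      exact (DD h).S_mono ((DD h).S_root_mul ((DD h).hψ' 0 _) ih) (by omega)

variable {h} (hh : Primrec₂ h)

include hh in
theorem primrec_letterAct (c : Fin (5 + 5) × Bool) : Primrec (letterAct h c) := by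
  obtain ⟨i, b⟩ := c
  induction i using Fin.addCases with
  | left j =>
    refine (primrec_sp hh (j, b)).of_eq ?_
    intro l
    unfold letterAct
    cases b
    · rw [if_neg (by simp), Subgroup.coe_inv, gen_left, mk_false, map_inv]
    · rw [if_pos rfl, gen_left, mk_true]
  | right j =>
    refine (primrec_root_ψ (j, b)).of_eq ?_
    intro l
    unfold letterAct
    cases b
    · rw [if_neg (by simp), Subgroup.coe_inv, gen_right, mk_false, map_inv, map_inv]
    · rw [if_pos rfl, gen_right, mk_true]

theorem primrec₂_of_finite {r : ℕ} {α σ : Type} [Primcodable α] [Primcodable σ]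
    {F : Fin r × Bool → α → σ} (hF : ∀ c, Primrec (F c)) : Primrec₂ F := by
  have h1 : Primrec₂ (fun (i : Fin r) (p : Bool × α) => F (i, p.1) p.2) := by
    rw [Primrec.fin_curry₁]
    intro i
    have h2 : Primrec (fun p : Bool × α => bif p.1 then F (i, true) p.2 else F (i, false) p.2) :=
      Primrec.cond Primrec.fst ((hF (i, true)).comp Primrec.snd) ((hF (i, false)).comp Primrec.snd)
    refine h2.of_eq ?_
    rintro ⟨b, a⟩
    cases b <;> rfl
  have h3 : Primrec (fun p : (Fin r × Bool) × α => F (p.1.1, p.1.2) p.2) :=
    h1.comp (Primrec.fst.comp Primrec.fst)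
      ((Primrec.snd.comp Primrec.fst).pair Primrec.snd)
  exact h3

include hh in
theorem primrec_eval : Primrec₂ (fun (l : List ℕ) (w : List (Fin (5 + 5) × Bool)) =>
    (evalWord (gen h) w).1 l) := by
  have h1 : Primrec₂ (letterAct h) := primrec₂_of_finite (primrec_letterAct hh)
  have h2 : Primrec (fun p : List ℕ × List (Fin (5 + 5) × Bool) =>
      p.2.foldr (fun c l => letterAct h c l) p.1) :=
    Primrec.list_foldr Primrec.snd Primrec.fst
      (h1.comp (Primrec.fst.comp Primrec.snd) (Primrec.snd.comp Primrec.snd)).to₂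
  refine h2.of_eq ?_
  intro p
  exact (evalWord_apply h p.2 p.1).symm

/-- monotonicity of the degrees -/
theorem kk_mono {a b : ℕ} (hab : a ≤ b) : kk a ≤ kk b := by
  unfold kk mm
  have h1 : (4 * a + 9) * (a + 2) ≤ (4 * b + 9) * (b + 2) := Nat.mul_le_mul (by omega) (by omega)
  omega

variable (hmono : ∀ i n n', n ≤ n' → h i n = true → h i n' = true)

include hh hmono in
/-- The word problem is solvable. -/
theorem wordProblem : WordProblemSolvable (gen h) := by
  let L : List (Fin (5 + 5) × Bool) → ℕ := fun w => 3 * (w.length + 1) + 3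
  have hL : Primrec L := Primrec.nat_add.comp
    (Primrec.nat_mul.comp (Primrec.const 3) (Primrec.succ.comp Primrec.list_length)) (Primrec.const 3)
  have hR : PrimrecRel (fun (u : List ℕ) (w : List (Fin (5 + 5) × Bool)) =>
      (evalWord (gen h) w).1 u = u) :=
    Primrec.eq.comp (primrec_eval hh) Primrec.fst
  have hP : PrimrecPred (fun w : List (Fin (5 + 5) × Bool) =>
      ∀ u ∈ tl (kk (L w)) (L w), (evalWord (gen h) w).1 u = u) :=
    (PrimrecRel.forall_mem_list hR).comp (primrec_tl.comp (primrec_kk.comp hL) hL) Primrec.id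
  have hP2 : PrimrecPred (fun w : List (Fin (5 + 5) × Bool) => evalWord (gen h) w = 1) := by
    refine hP.of_eq ?_
    intro w
    constructor
    · intro hw
      apply Subtype.ext
      refine (DD h).eq_one_of_fix_bounded (DD_transfer h hmono) w.length (evalWord_S h w) ?_
      intro u hu hul
      apply hw
      refine mem_tl _ _ hul ?_
      intro x hx
      obtain ⟨j, hj, rfl⟩ := List.getElem_of_mem hx
      rw [valid_iff] at hu
      have h1 := hu j hj
      rw [zero_add] at h1
      have h2 : L w = 3 * (w.length + 1) + 3 := rfl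
      exact lt_of_lt_of_le h1 (kk_mono (by omega))
    · intro hw u _
      rw [hw]
      rfl
  obtain ⟨hd, hp⟩ := hP2
  exact ⟨hd, hp.to_comp⟩

/-! ### Words for the two elements -/

/-- the word of a spinal element -/
def emb (w : List (Fin 5 × Bool)) : List (Fin (5 + 5) × Bool) :=
  w.map (fun c => (Fin.castAdd 5 c.1, c.2))

theorem evalWord_emb (w : List (Fin 5 × Bool)) :
    (evalWord (gen h) (emb w)).1 = (DD h).sp 0 (FreeGroup.mk w) := by
  induction w with
  | nil =>
    have : (FreeGroup.mk [] : FreeGroup (Fin 5)) = 1 := rfl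
    rw [this, map_one]
    rfl
  | cons c w ih =>
    rw [Data.mk_cons, map_mul, ← ih]
    change (evalWord (gen h) ((Fin.castAdd 5 c.1, c.2) :: emb w)).1 = _
    rw [evalWord_cons, Subgroup.coe_mul]
    congr 1
    obtain ⟨j, b⟩ := c
    simp only
    cases b
    · rw [if_neg (by simp), Subgroup.coe_inv, gen_left, mk_false, map_inv]
    · rw [if_pos rfl, gen_left, mk_true]

theorem mk_append (w w' : List (Fin 5 × Bool)) :
    (FreeGroup.mk (w ++ w') : FreeGroup (Fin 5)) = FreeGroup.mk w * FreeGroup.mk w' :=
  FreeGroup.mul_mk.symm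

theorem mk_replicate_true (i : ℕ) :
    (FreeGroup.mk (List.replicate i (2, true)) : FreeGroup (Fin 5)) = lt ^ i := by
  induction i with
  | zero => rfl
  | succ i ih => rw [List.replicate_succ, Data.mk_cons, ih, pow_succ']; rfl

theorem mk_replicate_false (i : ℕ) :
    (FreeGroup.mk (List.replicate i (2, false)) : FreeGroup (Fin 5)) = (lt ^ i)⁻¹ := by
  induction i with
  | zero => simp; rfl
  | succ i ih => rw [List.replicate_succ, Data.mk_cons, ih, pow_succ, mul_inv_rev]; rfl

/-- word of the commutator -/
def zzW (i : ℕ) : List (Fin 5 × Bool) :=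
  [(0, true)] ++ (List.replicate i (2, false) ++ [(1, true)] ++ List.replicate i (2, true)) ++
    [(0, false)] ++ (List.replicate i (2, false) ++ [(1, false)] ++ List.replicate i (2, true))

theorem mk_zzW (i : ℕ) : (FreeGroup.mk (zzW i) : FreeGroup (Fin 5)) = zz i := by
  have e0 : (FreeGroup.mk [(0, true)] : FreeGroup (Fin 5)) = la := rfl
  have e1 : (FreeGroup.mk [(0, false)] : FreeGroup (Fin 5)) = la⁻¹ := rfl
  have e2 : (FreeGroup.mk [(1, true)] : FreeGroup (Fin 5)) = lb := rfl
  have e3 : (FreeGroup.mk [(1, false)] : FreeGroup (Fin 5)) = lb⁻¹ := rfl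
  rw [zzW, mk_append, mk_append, mk_append, mk_append, mk_append, mk_append, mk_append,
    mk_replicate_true, mk_replicate_false, e0, e1, e2, e3, zz]
  group

/-- word of the first element -/
def v1W (i : ℕ) : List (Fin 5 × Bool) := zzW i ++ ([(2, true)] ++ zzW i ++ [(2, false)])

/-- word of the second element -/
def v2W (i : ℕ) : List (Fin 5 × Bool) :=
  zzW i ++ ([(2, true), (2, true)] ++ zzW i ++ [(2, false), (2, false)])

theorem mk_v1W (i : ℕ) : (FreeGroup.mk (v1W i) : FreeGroup (Fin 5)) = v1 i := by
  have e1 : (FreeGroup.mk [(2, true)] : FreeGroup (Fin 5)) = lt := rfl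
  have e2 : (FreeGroup.mk [(2, false)] : FreeGroup (Fin 5)) = lt⁻¹ := rfl
  rw [v1W, mk_append, mk_append, mk_append, mk_zzW, e1, e2, v1]

theorem mk_v2W (i : ℕ) : (FreeGroup.mk (v2W i) : FreeGroup (Fin 5)) = v2 i := by
  have e1 : (FreeGroup.mk [(2, true), (2, true)] : FreeGroup (Fin 5)) = lt ^ 2 :=
    mk_replicate_true 2
  have e2 : (FreeGroup.mk [(2, false), (2, false)] : FreeGroup (Fin 5)) = (lt ^ 2)⁻¹ :=
    mk_replicate_false 2
  rw [v2W, mk_append, mk_append, mk_append, mk_zzW, e1, e2, v2]

theorem primrec_replicate {α : Type} [Primcodable α] (c : α) :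
    Primrec (fun i => List.replicate i c) := by
  have h1 : Primrec (fun i => (List.range i).map (fun _ => c)) :=
    Primrec.list_map Primrec.list_range (Primrec.const c)
  refine h1.of_eq ?_
  intro i
  simp

theorem primrec_zzW : Primrec zzW := by
  unfold zzW
  exact Primrec.list_append.comp (Primrec.list_append.comp (Primrec.list_append.comp
    (Primrec.const _) (Primrec.list_append.comp (Primrec.list_append.comp (primrec_replicate _)
      (Primrec.const _)) (primrec_replicate _))) (Primrec.const _))
    (Primrec.list_append.comp (Primrec.list_append.comp (primrec_replicate _)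
      (Primrec.const _)) (primrec_replicate _))

theorem primrec_v1W : Primrec v1W := by
  unfold v1W
  exact Primrec.list_append.comp primrec_zzW (Primrec.list_append.comp
    (Primrec.list_append.comp (Primrec.const _) primrec_zzW) (Primrec.const _))

theorem primrec_v2W : Primrec v2W := by
  unfold v2W
  exact Primrec.list_append.comp primrec_zzW (Primrec.list_append.comp
    (Primrec.list_append.comp (Primrec.const _) primrec_zzW) (Primrec.const _))

theorem primrec_emb : Primrec emb := by
  unfold emb
  have h1 : Primrec (fun c : Fin 5 × Bool => ((Fin.castAdd 5 c.1, c.2) : Fin (5 + 5) × Bool)) :=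
    Primrec.dom_finite _
  exact Primrec.list_map Primrec.id (h1.comp Primrec.snd)

include hmono in
/-- The conjugacy problem encodes the relation. -/
theorem isConj_iff_exists (i : ℕ) :
    IsConj (evalWord (gen h) (emb (v1W i))) (evalWord (gen h) (emb (v2W i))) ↔
      ∃ n, h i n = true := by
  constructor
  · intro hc
    by_contra hcon
    have hall : ∀ n, h i n = false := by
      intro n
      by_contra hn
      exact hcon ⟨n, by simpa using hn⟩
    obtain ⟨g, hg⟩ := isConj_iff.mp hc
    have h1 := congrArg (fun e : (DD h).G 0 => (e : Perm (List ℕ))) hg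
    simp only [Subgroup.coe_mul, Subgroup.coe_inv, evalWord_emb, mk_v1W, mk_v2W] at h1
    exact DD_not_conj h hall g.2 h1
  · rintro ⟨n, hn⟩
    obtain ⟨g, hg, hgv⟩ := DD_conj h hmono hn
    rw [isConj_iff]
    refine ⟨⟨g, hg⟩, ?_⟩
    apply Subtype.ext
    rw [Subgroup.coe_mul, Subgroup.coe_mul, Subgroup.coe_inv, evalWord_emb, evalWord_emb, mk_v1W,
      mk_v2W]
    exact hgv

include hmono in
theorem computable_of_conjugacyProblem (hcp : ConjugacyProblemSolvable (gen h)) :
    ComputablePred (fun i : ℕ => ∃ n, h i n = true) := by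
  refine ComputablePred.computable_of_manyOneReducible
    ⟨fun i => (emb (v1W i), emb (v2W i)), ?_, ?_⟩ hcp
  · exact ((primrec_emb.comp primrec_v1W).pair (primrec_emb.comp primrec_v2W)).to_comp
  · intro i
    exact (isConj_iff_exists hmono i).symm

end generators

/-! ### The halting problem -/

open Nat.Partrec in
/-- the halting relation -/
def hrel (i n : ℕ) : Bool := (Code.evaln n (Denumerable.ofNat Code i) 0).isSome

open Nat.Partrec in
theorem primrec_hrel : Primrec₂ hrel := by
  have h1 : Primrec (fun p : ℕ × ℕ => Code.evaln p.2 (Denumerable.ofNat Code p.1) 0) :=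
    Code.primrec_evaln.comp ((Primrec.snd.pair ((Primrec.ofNat Code).comp Primrec.fst)).pair
      (Primrec.const 0))
  exact Primrec.option_isSome.comp h1

open Nat.Partrec in
theorem hrel_mono : ∀ i n n', n ≤ n' → hrel i n = true → hrel i n' = true := by
  intro i n n' hnn hi
  unfold hrel at hi ⊢
  rw [Option.isSome_iff_exists] at hi ⊢
  obtain ⟨x, hx⟩ := hi
  exact ⟨x, Code.evaln_mono hnn hx⟩

open Nat.Partrec in
theorem hrel_undecidable : ¬ ComputablePred (fun i : ℕ => ∃ n, hrel i n = true) := by
  intro hc
  apply ComputablePred.halting_problem 0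
  refine ComputablePred.computable_of_manyOneReducible ⟨Encodable.encode, Computable.encode, ?_⟩ hc
  intro c
  change (Code.eval c 0).Dom ↔ ∃ n, hrel (Encodable.encode c) n = true
  unfold hrel
  rw [Denumerable.ofNat_encode]
  constructor
  · intro hd
    obtain ⟨k, hk⟩ := Code.evaln_complete.mp (Part.get_mem hd)
    exact ⟨k, Option.isSome_iff_exists.mpr ⟨_, hk⟩⟩
  · rintro ⟨n, hn⟩
    obtain ⟨x, hx⟩ := Option.isSome_iff_exists.mp hn
    exact Part.dom_iff_mem.mpr ⟨x, Code.evaln_sound hx⟩

/-- **There is a finitely generated branch group such that, for every finite generating family, the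
word problem is solvable and the conjugacy problem is unsolvable.** -/
theorem result : ∃ (G : Type) (_ : Group G), IsBranchGroup G ∧ Group.FG G ∧
    (∀ (r : ℕ) (s : Fin r → G), Generates s → WordProblemSolvable s) ∧
    (∀ (r : ℕ) (s : Fin r → G), Generates s → ¬ ConjugacyProblemSolvable s) := by
  refine ⟨(DD hrel).G 0, inferInstance, isBranchGroup (DD hrel), ?_, ?_, ?_⟩
  · rw [Group.fg_iff]
    exact ⟨Set.range (gen hrel), gen_generates hrel, Set.finite_range _⟩
  · intro r s _
    exact wordProblem_transfer s (gen hrel) (gen_generates hrel) (wordProblem primrec_hrel hrel_mono)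
  · intro r s hs hcp
    apply hrel_undecidable
    apply computable_of_conjugacyProblem hrel_mono
    exact conjugacyProblem_transfer (gen hrel) s hs hcp

end Pool.Agent.Results.MP_9b3f3c_al.BranchConjugacy
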